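import Pool.Agent.Run7.h354.BE.ShortB

/-!
# Every stability condition on a bielliptic surface is geometric

Let `τ`, `τ'` be in the upper half plane, `E = ℂ / (ℤ + ℤ τ)`, `F = ℂ / (ℤ + ℤ τ')`, and let the
group `G` of order two act freely on `E × F` by `(z, w) ↦ (z + 1/2, -w)`. The quotient
`S = (E × F) / G` is a bielliptic surface; `τ`, `τ'` are arbitrary. Its Albanese morphism
is `S → E / G`; the fibres are curves, so it is not finite. The theorem `result` says: for every
Bridgeland stability condition on the bounded derived category of coherent sheaves on `S` which
satisfies the support property, all the skyscraper sheaves of points of `S` are stable of one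
phase.

## How the derived category is defined

The group of gradings `Gam = ℤ × ℂˣ` maps onto the Picard group of an elliptic curve:
`(n, c)` is the line bundle whose sections are the entire functions with `f (z + 1) = f z`,
`f (z + τ) = c exp (-2 π i n z) f z`; they form the space `V τ (n, c)`, and `W τ τ' (γ, δ)` is the
space of sections of the exterior product of two such line bundles on `E × F`.

* `GM τ τ' false` is the abelian category of the graded modules over the graded ring
  `⨁ W τ τ' a` (`a` in `Gam × Gam`), written as functors on the category `Ob τ τ' false` of
  degrees which are linear in the theta function.
* `QC τ τ' false` is its quotient by the Serre subcategory `tors` of the modules whose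
  sheaf is zero: every element is killed, for every point, by a section `g (z) h (w)` of a line
  bundle which does not vanish at the point. So it is the category of quasi-coherent sheaves on
  the projective surface `E × F`.
* `GM τ τ' true` and `QC τ τ' true` are the same with an action of the involution
  `(z, w) ↦ (z + 1/2, -w)` compatible with its action on the theta functions (the morphisms of
  `Ob τ τ' true` are the products of theta functions and of powers of the involution):
  the `G`-equivariant quasi-coherent sheaves on `E × F`, that is the quasi-coherent sheaves on `S`.
* `Db τ τ' true` is the thick closure, in the derived category of `QC τ τ' true`, of the sheaves of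
  the free modules with one generator. These are the direct images on `S` of the line bundles of
  `E × F` (`free1_dir`); so it is the bounded derived category of coherent sheaves on `S`: it is
  also the category of the complexes whose inverse image on `E × F` is in the thick closure of the
  line bundles (`dbs_eq`).
* `Sky x M` says that the module `M` is the skyscraper at the image of `x` in `S`: its value in each
  degree is the space of the functions on the fibre `{x, inv true x}` of `E × F → S`. Every
  point of `S` is the image of such an `x` in `ℂ × ℂ`. There is one such `M` up to isomorphism.

`PreStab` is a central charge with a slicing (Bridgeland's axioms, with Harder-Narasimhan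
filtrations), `Stable φ` means stable of phase `φ`, and `Support` is the support property with
respect to some homomorphism to a finitely generated free abelian group through which the
central charge factors, for instance the numerical Grothendieck group.
-/

set_option autoImplicit false

open CategoryTheory
open Pool.Agent.Helper445_GMF Run7.h354.BE

namespace Pool.Agent.Results.MP_21b43d_ag.BiellipticAllGeometric

universe w

/-- **Every stability condition on the bielliptic surface `S = (E × F) / G` is geometric**: there
are skyscraper modules `M` at all the points, and for every stability condition `σ` on
`D^b(Coh S)` with the support property there is a phase `φ` such that all the skyscraper sheaves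
`sh0 M` are in `D^b(Coh S)` and stable of phase `φ`. -/
theorem result (τ τ' : ℂ) (hτ : 0 < τ.im) (hτ' : 0 < τ'.im)
    [HasDerivedCategory.{w} (QC τ τ' true)] :
    (∀ x : ℂ × ℂ, ∃ M : GM τ τ' true, Sky x M) ∧
    ∀ σ : PreStab (Db τ τ' true).FullSubcategory, Support σ →
      ∃ φ : ℝ, ∀ (x : ℂ × ℂ) (M : GM τ τ' true), Sky x M →
        ∃ h : Db τ τ' true (sh0 M), σ.Stable φ (⟨sh0 M, h⟩ : (Db τ τ' true).FullSubcategory) :=
  ⟨fun x => ⟨_, sky_ptS x⟩, fun σ hσ => geometric_short hτ hτ' σ hσ⟩

end Pool.Agent.Results.MP_21b43d_ag.BiellipticAllGeometric
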